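import Pool.Agent.Helper5.KPA.StP

/-! # Project KP, chapter A, module MRA: the central fibre is reduced if all `b i = 1` -/

set_option autoImplicit false

namespace Pool.Agent.Helper64.KPA

open Pool.Agent.Helper5.KPA Pool.Agent.Helper52.KP MvPolynomial

private theorem mra_C (C : Cone) {k : ℕ} {f : MvPolynomial (Fin C.m) ℂ} (hf : f ∈ C.R k) :
    Polynomial.C f ∈ QR C k := by
  intro l
  rw [Polynomial.coeff_C]
  split_ifs
  · exact hf
  · exact (C.R k).zero_mem

private theorem mra_X (C : Cone) (hC : Good C) (p : ℕ) : (Polynomial.X : QQ C.m) ^ p ∈ QR C 0 := by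
  intro l
  rw [Polynomial.coeff_X_pow]
  split_ifs
  · exact hC.one
  · exact (C.R 0).zero_mem

private theorem mra_pow {C : Cone} {k : ℕ} (hC : Good C) {f : MvPolynomial (Fin C.m) ℂ}
    (hf : f ∈ C.R k) (j : ℕ) : f ^ j ∈ C.R (j * k) := by
  induction j with
  | zero =>
    rw [pow_zero, Nat.zero_mul]
    exact hC.one
  | succ j ih =>
    rw [pow_succ, Nat.succ_mul]
    exact hC.mul _ _ _ _ ih hf

theorem hMRA : StMRA := by
  intro C hC r F hF h v b hV hb k l j f hj hf hfj
  by_cases hf0 : f = 0
  · rw [hf0]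
    exact (F _ _).zero_mem
  have hanti : ∀ k l, F k l ≤ F k 0 := by
    intro k l
    induction l with
    | zero => exact le_rfl
    | succ l ih => exact (hF.anti k l).trans ih
  have hfR : f ∈ C.R (C.n * r * k) := by
    rw [← hF.zero k]
    exact hanti k l hf
  have hX0 : ∀ p : ℕ, (Polynomial.X : QQ C.m) ^ p ∈ QR C (C.n * r * 0) := by
    intro p
    rw [Nat.mul_zero]
    exact mra_X C hC p
  have hone : ∀ i, v i (1 : QQ C.m) = 0 := by
    intro i
    have h1 := hV.cst i 1 one_ne_zero
    rwa [map_one, map_one] at h1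
  have hvX : ∀ i (p : ℕ), v i ((Polynomial.X : QQ C.m) ^ p) = -(p : ℤ) := by
    intro i p
    induction p with
    | zero =>
      rw [pow_zero, hone]
      simp
    | succ p ih =>
      have h1 : (Polynomial.X : QQ C.m) ∈ QR C (C.n * r * 0) := by
        have h2 := hX0 1
        rwa [pow_one] at h2
      rw [pow_succ, hV.mul i 0 0 _ _ (hX0 p) h1 (pow_ne_zero _ Polynomial.X_ne_zero)
        Polynomial.X_ne_zero, ih, hV.tau i, hb i]
      push_cast
      ring
  have hvf : ∀ i (q : ℕ), v i (Polynomial.C (f ^ q)) = q * v i (Polynomial.C f) := by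
    intro i q
    induction q with
    | zero =>
      rw [pow_zero, map_one, hone]
      simp
    | succ q ih =>
      have h1 : Polynomial.C (f ^ q) ∈ QR C (C.n * r * (q * k)) := by
        refine mra_C C ?_
        have h2 := mra_pow hC hfR q
        have h3 : q * (C.n * r * k) = C.n * r * (q * k) := by ring
        rwa [h3] at h2
      rw [pow_succ, Polynomial.C_mul, hV.mul i (q * k) k _ _ h1 (mra_C C hfR)
        (Polynomial.C_ne_zero.2 (pow_ne_zero _ hf0)) (Polynomial.C_ne_zero.2 hf0), ih]
      push_cast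
      ring
  have hlow : ∀ i, (l : ℤ) + 1 ≤ v i (Polynomial.C f) := by
    intro i
    have h1 : Polynomial.C (f ^ j) * (Polynomial.X : QQ C.m) ^ (j * l + 1) ∈ BB F (j * k) := by
      intro q
      rw [Polynomial.coeff_C_mul_X_pow]
      split_ifs with hq
      · rw [hq]
        exact hfj
      · exact (F _ _).zero_mem
    have hne : Polynomial.C (f ^ j) ≠ (0 : QQ C.m) := Polynomial.C_ne_zero.2 (pow_ne_zero _ hf0)
    have h2 := hV.nonneg i (j * k) _ h1
      (mul_ne_zero hne (pow_ne_zero _ Polynomial.X_ne_zero))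
    have h3 : Polynomial.C (f ^ j) ∈ QR C (C.n * r * (j * k)) := by
      refine mra_C C ?_
      have h4 := mra_pow hC hfR j
      have h5 : j * (C.n * r * k) = C.n * r * (j * k) := by ring
      rwa [h5] at h4
    rw [hV.mul i (j * k) 0 _ _ h3 (hX0 _) hne (pow_ne_zero _ Polynomial.X_ne_zero), hvX, hvf] at h2
    push_cast at h2
    by_contra hlt
    push Not at hlt
    have h6 : v i (Polynomial.C f) ≤ l := by omega
    have h7 : (j : ℤ) * v i (Polynomial.C f) ≤ j * l :=
      mul_le_mul_of_nonneg_left h6 (Int.natCast_nonneg j)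
    linarith
  have hin : Polynomial.C f * (Polynomial.X : QQ C.m) ^ (l + 1) ∈ QR C (C.n * r * k) := by
    intro q
    rw [Polynomial.coeff_C_mul_X_pow]
    split_ifs
    · exact hfR
    · exact (C.R _).zero_mem
  have hne : Polynomial.C f ≠ (0 : QQ C.m) := Polynomial.C_ne_zero.2 hf0
  have hfin := hV.mem k _ hin (mul_ne_zero hne (pow_ne_zero _ Polynomial.X_ne_zero)) (fun i => by
    rw [hV.mul i k 0 _ _ (mra_C C hfR) (hX0 _) hne (pow_ne_zero _ Polynomial.X_ne_zero), hvX]
    have h8 := hlow i
    push_cast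
    linarith)
  have h9 := hfin (l + 1)
  rw [Polynomial.coeff_C_mul_X_pow, if_pos rfl] at h9
  exact h9

end Pool.Agent.Helper64.KPA
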