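import Pool.Agent.Helper5.KPA.StT

/-! # Project KP, chapter T, module TNB: nondegeneracy -/

set_option autoImplicit false

namespace Pool.Agent.Helper64.KPA

open Pool.Agent.Helper5.KPA Pool.Agent.Helper52.KP MvPolynomial

section Ring

variable {S : Type} [CommRing S] [Algebra ℂ S]

private theorem tnb_mul {G : ℕ → Submodule ℂ S} (hG : GrA G) {x y : S} (hx : x ∈ ⨆ k, G k)
    (hy : y ∈ ⨆ k, G k) : x * y ∈ ⨆ k, G k := by
  induction hx using Submodule.iSup_induction' with
  | mem i x hx =>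
    induction hy using Submodule.iSup_induction' with
    | mem j y hy => exact Submodule.mem_iSup_of_mem (i + j) (hG.mul i j x y hx hy)
    | zero => rw [mul_zero]; exact Submodule.zero_mem _
    | add y z _ _ h1 h2 => rw [mul_add]; exact Submodule.add_mem _ h1 h2
  | zero => rw [zero_mul]; exact Submodule.zero_mem _
  | add x z _ _ h1 h2 => rw [add_mul]; exact Submodule.add_mem _ h1 h2

private theorem tnb_one {G : ℕ → Submodule ℂ S} (hG : GrA G) : (1 : S) ∈ G 0 := by
  rw [hG.zero]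
  exact Submodule.mem_span_singleton_self _

private theorem tnb_aeval {G : ℕ → Submodule ℂ S} (hG : GrA G) {e : ℕ} (a : Fin e → S)
    (ha : ∀ i, a i ∈ G 1) (p : MvPolynomial (Fin e) ℂ) : aeval a p ∈ ⨆ k, G k := by
  induction p using MvPolynomial.induction_on with
  | C c =>
    rw [aeval_C, Algebra.algebraMap_eq_smul_one]
    exact Submodule.smul_mem _ _ (Submodule.mem_iSup_of_mem 0 (tnb_one hG))
  | add p q h1 h2 => rw [map_add]; exact Submodule.add_mem _ h1 h2
  | mul_X p i h =>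
    rw [map_mul, aeval_X]
    exact tnb_mul hG h (Submodule.mem_iSup_of_mem 1 (ha i))

/-- homogeneous elements divide nonzero elements of the Noether normalization -/
private theorem tnb_div [IsDomain S] {G : ℕ → Submodule ℂ S} (hG : GrA G) {e : ℕ} (a : Fin e → S)
    (ha : NN G a) (i : ℕ) (b : S) (hb : b ∈ G i) (hb0 : b ≠ 0) :
    ∃ b' ∈ ⨆ k, G k, ∃ α : MvPolynomial (Fin e) ℂ, α ≠ 0 ∧ b * b' = aeval a α := by
  let alg : Algebra (MvPolynomial (Fin e) ℂ) S := (aeval a : MvPolynomial (Fin e) ℂ →ₐ[ℂ] S).toAlgebra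
  have hmap : ∀ p : MvPolynomial (Fin e) ℂ, algebraMap (MvPolynomial (Fin e) ℂ) S p = aeval a p :=
    fun _ => rfl
  have tower : IsScalarTower ℂ (MvPolynomial (Fin e) ℂ) S :=
    IsScalarTower.of_algebraMap_eq fun c => by
      rw [hmap, MvPolynomial.algebraMap_eq, aeval_C]
  obtain ⟨D, hD⟩ := ha.fg
  -- the finitely generated module
  obtain ⟨N, hN⟩ : ∃ N : Submodule (MvPolynomial (Fin e) ℂ) S,
      N = ⨆ k : Fin (D + 1), Submodule.span (MvPolynomial (Fin e) ℂ) (G k : Set S) := ⟨_, rfl⟩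
  have hfg : N.FG := by
    rw [hN]
    refine Submodule.fg_iSup _ fun k => ?_
    have := hG.fd k
    obtain ⟨t, ht⟩ := (Submodule.fg_iff_finiteDimensional (G k)).2 inferInstance
    rw [← ht, Submodule.span_span_of_tower]
    exact ⟨t, rfl⟩
  have hsub : ∀ k, ∀ x ∈ G k, x ∈ N := by
    intro k
    induction k with
    | zero =>
      intro x hx
      rw [hN]
      exact Submodule.mem_iSup_of_mem (0 : Fin (D + 1)) (Submodule.subset_span hx)
    | succ k ih =>
      intro x hx
      by_cases hk : k + 1 ≤ D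
      · rw [hN]
        exact Submodule.mem_iSup_of_mem (⟨k + 1, by omega⟩ : Fin (D + 1))
          (Submodule.subset_span hx)
      · obtain ⟨y, hy, e1⟩ := hD k (by omega) x hx
        rw [e1]
        refine Submodule.sum_mem _ fun l _ => ?_
        have e2 : a l * y l = (X l : MvPolynomial (Fin e) ℂ) • y l := by
          rw [Algebra.smul_def, hmap, aeval_X]
        rw [e2]
        exact N.smul_mem _ (ih _ (hy l))
  have hstab : ∀ n ∈ N, b * n ∈ N := by
    intro n hn
    rw [hN] at hn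
    induction hn using Submodule.iSup_induction' with
    | mem k x hx =>
      induction hx using Submodule.span_induction with
      | mem x hx => exact hsub _ _ (hG.mul i k b x hb hx)
      | zero => rw [mul_zero]; exact N.zero_mem
      | add x y _ _ h1 h2 => rw [mul_add]; exact N.add_mem h1 h2
      | smul p x _ h => rw [mul_smul_comm]; exact N.smul_mem _ h
    | zero => rw [mul_zero]; exact N.zero_mem
    | add x y _ _ h1 h2 => rw [mul_add]; exact N.add_mem h1 h2
  have hne : N ≠ ⊥ := by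
    intro h
    have h1 := hsub 0 1 (tnb_one hG)
    rw [h, Submodule.mem_bot] at h1
    exact one_ne_zero h1
  have hint : IsIntegral (MvPolynomial (Fin e) ℂ) b :=
    isIntegral_of_smul_mem_submodule N hne hfg b fun n hn => hstab n hn
  obtain ⟨t, ht, α, hα, e3⟩ := hint.isAlgebraic.exists_nonzero_eq_adjoin_mul
    (mem_nonZeroDivisors_of_ne_zero hb0)
  refine ⟨t, ?_, α, hα, e3⟩
  clear e3
  induction ht using Algebra.adjoin_induction with
  | mem x hx =>
    rw [Set.mem_singleton_iff.1 hx]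
    exact Submodule.mem_iSup_of_mem i hb
  | algebraMap p => exact tnb_aeval hG a ha.mem p
  | add x y _ _ h1 h2 => exact Submodule.add_mem _ h1 h2
  | mul x y _ _ h1 h2 => exact tnb_mul hG h1 h2

end Ring

private theorem tnb_qr_mul (C : Cone) (hC : Good C) {i j : ℕ} {x y : QQ C.m} (hx : x ∈ QR C i)
    (hy : y ∈ QR C j) : x * y ∈ QR C (i + j) := by
  intro l
  rw [Polynomial.coeff_mul]
  exact Submodule.sum_mem _ fun p _ => hC.mul i j _ _ (hx p.1) (hy p.2)

private theorem tnb_qr_one (C : Cone) (hC : Good C) : (1 : QQ C.m) ∈ QR C 0 := by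
  intro l
  rw [Polynomial.coeff_one]
  split_ifs
  · exact hC.one
  · exact (C.R 0).zero_mem

private theorem tnb_qr_pow (C : Cone) (hC : Good C) {i : ℕ} {x : QQ C.m} (hx : x ∈ QR C i)
    (j : ℕ) : x ^ j ∈ QR C (j * i) := by
  induction j with
  | zero =>
    rw [pow_zero, Nat.zero_mul]
    exact tnb_qr_one C hC
  | succ j ih =>
    rw [pow_succ, Nat.succ_mul]
    exact tnb_qr_mul C hC ih hx

/-- a nonzero element of degree `j` -/
private theorem tnb_ne (C : Cone) (hC : Good C) (j : ℕ) : ∃ s ∈ C.R j, s ≠ 0 := by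
  obtain ⟨z, hz⟩ : ∃ z : Fin C.m → ℂ, ev C.Δ z ≠ 0 := by
    by_contra h
    push Not at h
    refine hC.Δ0 (MvPolynomial.funext fun z => ?_)
    rw [map_zero]
    exact h z
  have h1 := hC.Xpos z hz
  obtain ⟨i, hi⟩ : ∃ i, C.X i ≠ 0 := by
    by_contra h
    push Not at h
    have h2 : C.sz z = 0 := by
      unfold Cone.sz
      refine Finset.sum_eq_zero fun i _ => ?_
      rw [h i]
      simp
    rw [h2] at h1
    exact lt_irrefl _ h1
  refine ⟨C.X i ^ j, ?_, pow_ne_zero _ hi⟩
  induction j with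
  | zero =>
    rw [pow_zero]
    exact hC.one
  | succ j ih =>
    rw [pow_succ]
    exact hC.mul j 1 _ _ ih (hC.XR i)

theorem hTNB (hAGR : StAGR) : StTNB := by
  intro C hC r F hF a ha k x' S hk hx' hx0 hS
  obtain ⟨hB, -, hF1, -⟩ := hAGR C hC r F hF
  have hr := hF.hr
  have hn := hC.hn
  -- a multiple by an element of high degree is in `BB F`
  have hup : ∀ (y : QQ C.m) (p L : ℕ), y ∈ QR C (C.n * r * p) → y.natDegree < L →
      ∀ s ∈ C.R (C.n * r * L), Polynomial.C s * y ∈ BB F (L + p) := by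
    intro y p L hy hL s hs l
    rw [Polynomial.coeff_C_mul]
    by_cases hl : l ≤ L + p
    · rw [hF1 _ _ hl]
      show s * y.coeff l ∈ C.R (C.n * r * (L + p))
      rw [Nat.mul_add]
      exact hC.mul _ _ _ _ hs (hy l)
    · rw [Polynomial.coeff_eq_zero_of_natDegree_lt (by omega), mul_zero]
      exact (F _ _).zero_mem
  -- the two elements
  have hd : C.n ≤ C.n * r * k := by
    calc C.n = C.n * 1 * 1 := by ring
      _ ≤ C.n * r * k := Nat.mul_le_mul (Nat.mul_le_mul_left _ hr) hk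
  have hd2 : C.n ≤ C.n * r * (C.m + 1) := by
    calc C.n = C.n * 1 * 1 := by ring
      _ ≤ C.n * r * (C.m + 1) := Nat.mul_le_mul (Nat.mul_le_mul_left _ hr) (by omega)
  have hy1 : S * x' ^ (r - 1) ∈ QR C (C.n * r * (C.m + (r - 1) * k)) := by
    have h1 := tnb_qr_mul C hC hS (tnb_qr_pow C hC hx' (r - 1))
    have h2 : C.n * r * (C.m + 1) - C.n + (r - 1) * (C.n * r * k - C.n) =
        C.n * r * (C.m + (r - 1) * k) := by
      obtain ⟨q, rfl⟩ : ∃ q, r = q + 1 := ⟨r - 1, by omega⟩
      rw [Nat.add_sub_cancel]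
      zify [hd, hd2]
      ring
    rwa [h2] at h1
  have hy2 : x' ^ r ∈ QR C (C.n * r * (r * k - 1)) := by
    have h1 := tnb_qr_pow C hC hx' r
    have h3 : 1 ≤ r * k := Nat.mul_pos hr hk
    have h2 : r * (C.n * r * k - C.n) = C.n * r * (r * k - 1) := by
      zify [hd, h3]
      ring
    rwa [h2] at h1
  have hxr : x' * x' ^ (r - 1) = x' ^ r := by
    rw [← pow_succ']
    congr 1
    omega
  obtain ⟨L, hL⟩ : ∃ L, L = (S * x' ^ (r - 1)).natDegree + (x' ^ r).natDegree + 1 := ⟨_, rfl⟩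
  obtain ⟨s, hs, hs0⟩ := tnb_ne C hC (C.n * r * L)
  have hb1 := hup _ _ L hy1 (by omega) s hs
  have hb2 := hup _ _ L hy2 (by omega) s hs
  have hb20 : Polynomial.C s * x' ^ r ≠ 0 :=
    mul_ne_zero (Polynomial.C_ne_zero.2 hs0) (pow_ne_zero _ hx0)
  obtain ⟨b3, hb3, α, hα, e1⟩ := tnb_div hB a ha _ _ hb2 hb20
  refine ⟨Polynomial.C s * (S * x' ^ (r - 1)) * b3,
    tnb_mul hB (Submodule.mem_iSup_of_mem _ hb1) hb3, α, hα, ?_⟩
  rw [← e1, ← hxr]
  ring

end Pool.Agent.Helper64.KPA
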